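import Pool.Agent.Helper6_Eng.Stmts

/-!
# Squad ENG, module FLIFT
-/

set_option autoImplicit false

namespace Pool.Agent.Eng.H78

theorem flift : LiftStmt := by
  intro G _ _ Z _ p k hp hy
  obtain ⟨y, hy⟩ := hy
  obtain ⟨g0, rfl⟩ := QuotientGroup.mk_surjective y
  have hpos : 0 < orderOf g0 := orderOf_pos g0
  obtain ⟨a, m, hm, hN⟩ := Nat.exists_eq_pow_mul_and_not_dvd hpos.ne' p hp.ne_one
  have hcop : Nat.Coprime (p ^ k) m := ((Nat.Prime.coprime_iff_not_dvd hp).2 hm).pow_left k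
  have hmpos : m ≠ 0 := by
    rintro rfl
    exact hm (dvd_zero p)
  refine ⟨g0 ^ m, a, ?_, ?_⟩
  · rw [orderOf_pow_of_dvd hmpos (by rw [hN]; exact dvd_mul_left m _), hN]
    exact Nat.mul_div_cancel _ (Nat.pos_of_ne_zero hmpos)
  · have h1 : (QuotientGroup.mk (g0 ^ m) : G ⧸ Z) = (QuotientGroup.mk g0 : G ⧸ Z) ^ m := rfl
    rw [h1, Nat.Coprime.orderOf_pow]
    · exact hy
    · rw [hy]
      exact hcop

end Pool.Agent.Eng.H78
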