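import Pool.Agent.Helper6_Eng.Stmts

/-!
# Squad ENG, module LTR
-/

set_option autoImplicit false

namespace Pool.Agent.Eng.H78

theorem map_center_equiv {G H : Type} [Group G] [Group H] (e : G ≃* H) :
    (Subgroup.center G).map (e : G →* H) = Subgroup.center H := by
  ext h
  simp only [Subgroup.mem_map, Subgroup.mem_center_iff]
  constructor
  · rintro ⟨g, hg, rfl⟩ x
    have := congrArg e (hg (e.symm x))
    simpa using this
  · intro hh
    refine ⟨e.symm h, fun x => ?_, by simp⟩
    have := congrArg e.symm (hh (e x))
    simpa using this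

theorem ltr : LtrStmt := by
  intro F V _ _ _ _ n hn
  have b : Module.Basis (Fin n) F V := (Module.finBasis F V).reindex (finCongr hn)
  have e := (Matrix.SpecialLinearGroup.toLin_equiv b).symm
  exact ⟨QuotientGroup.congr _ _ e (map_center_equiv e)⟩

end Pool.Agent.Eng.H78
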